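import Pool.Agent.H7.LD.Stmts

/-!
# Board `ld16`, row CMD: all residues, larger cliques
-/

set_option autoImplicit false

open Finset

namespace Pool.LD7

open Pool.Agent.H23.KT Pool.Agent.H46.KW Pool.KQ Pool.GT7 Pool.GU7 Pool.HZ7 Pool.IA7

theorem cmd_ch {p w : ℕ} (hw : w < p) :
    (p + 1) * p.choose (w + 1) < (p + 2).choose (w + 1) * (p - w) := by
  have e1 : p.choose (w + 1) * (p + 1) = (p + 1).choose (w + 1) * (p + 1 - (w + 1)) :=
    Nat.choose_mul_succ_eq p (w + 1)
  have e2 : (p + 1).choose (w + 1) * (p + 1 + 1) =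
      (p + 1 + 1).choose (w + 1) * (p + 1 + 1 - (w + 1)) :=
    Nat.choose_mul_succ_eq (p + 1) (w + 1)
  obtain ⟨d, hd⟩ : ∃ d, p = w + 1 + d := ⟨p - (w + 1), by omega⟩
  have s1 : p + 1 - (w + 1) = d + 1 := by omega
  have s2 : p + 1 + 1 - (w + 1) = d + 2 := by omega
  have s3 : p - w = d + 1 := by omega
  rw [s1] at e1
  rw [s2] at e2
  rw [s3]
  have hc : 0 < (p + 2).choose (w + 1) := Nat.choose_pos (by omega)
  have e3 : (p + 2) * ((p + 1) * p.choose (w + 1)) =
      (p + 2).choose (w + 1) * (d + 1) * (d + 2) := by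
    calc (p + 2) * ((p + 1) * p.choose (w + 1)) = (p + 2) * (p.choose (w + 1) * (p + 1)) := by ring
      _ = (p + 2) * ((p + 1).choose (w + 1) * (d + 1)) := by rw [e1]
      _ = ((p + 1).choose (w + 1) * (p + 1 + 1)) * (d + 1) := by ring
      _ = ((p + 1 + 1).choose (w + 1) * (d + 2)) * (d + 1) := by rw [e2]
      _ = _ := by ring
  have e4 : (p + 2).choose (w + 1) * (d + 1) * (d + 2) <
      (p + 2).choose (w + 1) * (d + 1) * (p + 2) :=
    Nat.mul_lt_mul_of_pos_left (by omega) (Nat.mul_pos hc (by omega))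
  refine Nat.lt_of_mul_lt_mul_left (a := p + 2) ?_
  rw [e3]
  calc _ < _ := e4
    _ = _ := by ring

theorem cmd_thm : CMDStmt := by
  intro h1 h2 h3 h4 p w r hp3 hw1 hwp hr hs1 hs2
  by_cases hrp : r ≤ p
  · exact h4 h2 h3 p w r hw1 hwp hrp hs1 hs2
  · have hr1 : r = p + 1 := by omega
    subst hr1
    have s1 : p + 3 - (p + 1) = 2 := by omega
    rw [s1] at hs1
    have hw : w < p := by omega
    have hch := cmd_ch hw
    refine h1 p w (p + 1) ⟨hw1, hwp, le_rfl, hp3, ?_⟩
    rw [s1]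
    have s2 : p + 1 - 1 = p := by omega
    rw [s2]
    obtain ⟨d, hd⟩ : ∃ d, p = w + 1 + d := ⟨p - (w + 1), by omega⟩
    have s3 : p - w = d + 1 := by omega
    rw [s3] at hch
    have e5 : (p + 2).choose (w + 1) * (2 * (p + 1)) =
        2 * ((p + 2).choose (w + 1) * (d + 1)) + (p + 2).choose (w + 1) * ((w + 1) * 2) := by
      have : p + 1 = (d + 1) + (w + 1) := by omega
      rw [this]
      ring
    rw [e5]
    have e6 : 2 * (p + 1) * p.choose (w + 1) = 2 * ((p + 1) * p.choose (w + 1)) := by ring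
    rw [e6]
    omega

end Pool.LD7
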